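import Mathlib

/-!
A weighted version of Dejean's bound for words over three letters.

Let the three letters have positive weights at least `2 K`.  Every word of length `13` contains a
factor `u v u` with `weight u ≥ weight v + K`.  The proof is a finite tree of cases.
-/

set_option autoImplicit false

namespace Pool.Agent.K6.H59.TB

/-- the weight of a word -/
def wt (W : Fin 3 → ℕ) (l : List (Fin 3)) : ℕ := (l.map W).sum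

lemma wt_nil (W : Fin 3 → ℕ) : wt W [] = 0 := rfl

lemma wt_append (W : Fin 3 → ℕ) (l l' : List (Fin 3)) : wt W (l ++ l') = wt W l + wt W l' := by
  simp [wt]

lemma wt_count (W : Fin 3 → ℕ) (l : List (Fin 3)) :
    wt W l = W 0 * l.count 0 + W 1 * l.count 1 + W 2 * l.count 2 := by
  induction l with
  | nil => simp [wt]
  | cons a l ih =>
    have h : wt W (a :: l) = W a + wt W l := by simp [wt]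
    rw [h, ih]
    fin_cases a <;> simp <;> ring

/-- `x` contains a factor `u v u` with `weight u ≥ weight v + K` -/
def Rep (W : Fin 3 → ℕ) (K : ℕ) (x : List (Fin 3)) : Prop :=
  ∃ x₁ u v x₂ : List (Fin 3), x = x₁ ++ (u ++ (v ++ (u ++ x₂))) ∧ wt W v + K ≤ wt W u

lemma Rep.append {W : Fin 3 → ℕ} {K : ℕ} {x : List (Fin 3)} (h : Rep W K x) (y : List (Fin 3)) :
    Rep W K (x ++ y) := by
  obtain ⟨x₁, u, v, x₂, rfl, hw⟩ := h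
  exact ⟨x₁, u, v, x₂ ++ y, by simp, hw⟩

/-- an entry `(i, l, g, c)` of a certificate: the factors `u` of length `l` at the positions `i` and
`i + l + g` agree; `c` is a multiplier -/
def okE (w : List (Fin 3)) (e : ℕ × ℕ × ℕ × ℕ) : Bool :=
  Nat.ble (e.1 + e.2.1 + e.2.2.1 + e.2.1) w.length &&
    decide ((w.drop e.1).take e.2.1 = (w.drop (e.1 + e.2.1 + e.2.2.1)).take e.2.1)

def U (w : List (Fin 3)) (e : ℕ × ℕ × ℕ × ℕ) : List (Fin 3) := (w.drop e.1).take e.2.1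
def V (w : List (Fin 3)) (e : ℕ × ℕ × ℕ × ℕ) : List (Fin 3) := (w.drop (e.1 + e.2.1)).take e.2.2.1

def cu (w : List (Fin 3)) (a : Fin 3) (c : List (ℕ × ℕ × ℕ × ℕ)) : ℕ :=
  (c.map fun e => e.2.2.2 * (U w e).count a).sum
def cv (w : List (Fin 3)) (a : Fin 3) (c : List (ℕ × ℕ × ℕ × ℕ)) : ℕ :=
  (c.map fun e => e.2.2.2 * (V w e).count a).sum
def cs (c : List (ℕ × ℕ × ℕ × ℕ)) : ℕ := (c.map fun e => e.2.2.2).sum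

def cert (c : List (ℕ × ℕ × ℕ × ℕ)) (w : List (Fin 3)) : Bool :=
  c.all (okE w) && Nat.ble (cv w 0 c) (cu w 0 c) && Nat.ble (cv w 1 c) (cu w 1 c) &&
    Nat.ble (cv w 2 c) (cu w 2 c) && Nat.ble 1 (cs c) &&
    Nat.ble (cs c + 2 * (cv w 0 c + cv w 1 c + cv w 2 c))
      (2 * (cu w 0 c + cu w 1 c + cu w 2 c))

lemma decomp (w : List (Fin 3)) (e : ℕ × ℕ × ℕ × ℕ) (h : okE w e = true) :
    ∃ x₁ x₂, w = x₁ ++ (U w e ++ (V w e ++ (U w e ++ x₂))) := by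
  unfold okE at h
  rw [Bool.and_eq_true, Nat.ble_eq, decide_eq_true_eq] at h
  obtain ⟨i, l, g, c⟩ := e
  simp only at h
  obtain ⟨h1, h2⟩ := h
  refine ⟨w.take i, w.drop (i + l + g + l), ?_⟩
  unfold U V
  simp only
  conv_lhs => rw [← List.take_append_drop i w]
  congr 1
  conv_lhs => rw [← List.take_append_drop l (w.drop i)]
  congr 1
  rw [List.drop_drop]
  conv_lhs => rw [← List.take_append_drop g (w.drop (i + l))]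
  congr 1
  rw [List.drop_drop, h2]
  conv_lhs => rw [← List.take_append_drop l (w.drop (i + l + g))]
  rw [List.drop_drop]

lemma sum_bound (W : Fin 3 → ℕ) (K : ℕ) (w : List (Fin 3)) (c : List (ℕ × ℕ × ℕ × ℕ))
    (h : ∀ e ∈ c, wt W (U w e) + 1 ≤ wt W (V w e) + K) :
    W 0 * cu w 0 c + W 1 * cu w 1 c + W 2 * cu w 2 c + cs c ≤
      W 0 * cv w 0 c + W 1 * cv w 1 c + W 2 * cv w 2 c + K * cs c := by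
  induction c with
  | nil => simp [cu, cv, cs]
  | cons e c ih =>
    have h1 := ih fun e' he' => h e' (List.mem_cons_of_mem _ he')
    have h2 := h e List.mem_cons_self
    have h3 : e.2.2.2 * (wt W (U w e) + 1) ≤ e.2.2.2 * (wt W (V w e) + K) :=
      Nat.mul_le_mul_left _ h2
    rw [wt_count, wt_count] at h3
    have e1 : ∀ a, cu w a (e :: c) = e.2.2.2 * (U w e).count a + cu w a c := fun a => by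
      simp [cu]
    have e2 : ∀ a, cv w a (e :: c) = e.2.2.2 * (V w e).count a + cv w a c := fun a => by
      simp [cv]
    have e3 : cs (e :: c) = e.2.2.2 + cs c := by simp [cs]
    rw [e1, e1, e1, e2, e2, e2, e3]
    nlinarith

lemma cert_sound (W : Fin 3 → ℕ) (K : ℕ) (hW : ∀ a, 2 * K ≤ W a) (c : List (ℕ × ℕ × ℕ × ℕ))
    (w : List (Fin 3)) (h : cert c w = true) : Rep W K w := by
  unfold cert at h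
  simp only [Bool.and_eq_true, Nat.ble_eq] at h
  obtain ⟨⟨⟨⟨⟨h0, h1⟩, h2⟩, h3⟩, h4⟩, h5⟩ := h
  rw [List.all_eq_true] at h0
  by_contra hcon
  have key : ∀ e ∈ c, wt W (U w e) + 1 ≤ wt W (V w e) + K := by
    intro e he
    by_contra hlt
    push Not at hlt
    obtain ⟨x₁, x₂, hx⟩ := decomp w e (h0 e he)
    exact hcon ⟨x₁, U w e, V w e, x₂, hx, by omega⟩
  have h6 := sum_bound W K w c key
  obtain ⟨a0, ha0⟩ := Nat.exists_eq_add_of_le h1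
  obtain ⟨a1, ha1⟩ := Nat.exists_eq_add_of_le h2
  obtain ⟨a2, ha2⟩ := Nat.exists_eq_add_of_le h3
  rw [ha0, ha1, ha2] at h6 h5
  have m0 : 2 * K * a0 ≤ W 0 * a0 := Nat.mul_le_mul_right _ (hW 0)
  have m1 : 2 * K * a1 ≤ W 1 * a1 := Nat.mul_le_mul_right _ (hW 1)
  have m2 : 2 * K * a2 ≤ W 2 * a2 := Nat.mul_le_mul_right _ (hW 2)
  have h7 : K * cs c ≤ K * (2 * (a0 + a1 + a2)) := Nat.mul_le_mul_left _ (by omega)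
  rw [show K * (2 * (a0 + a1 + a2)) = 2 * K * a0 + 2 * K * a1 + 2 * K * a2 by ring] at h7
  rw [Nat.mul_add, Nat.mul_add, Nat.mul_add] at h6
  omega

/-- a tree of cases -/
inductive Tree
  | leaf (c : List (ℕ × ℕ × ℕ × ℕ)) : Tree
  | node (t₀ t₁ t₂ : Tree) : Tree

def Tree.depth : Tree → ℕ
  | .leaf _ => 0
  | .node a b c => Nat.succ (max a.depth (max b.depth c.depth))

def Tree.check : Tree → List (Fin 3) → Bool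
  | .leaf c, w => cert c w
  | .node t₀ t₁ t₂, w => t₀.check (w ++ [0]) && (t₁.check (w ++ [1]) && t₂.check (w ++ [2]))

lemma Tree.sound (W : Fin 3 → ℕ) (K : ℕ) (hW : ∀ a, 2 * K ≤ W a) (t : Tree) :
    ∀ w : List (Fin 3), t.check w = true → ∀ y : List (Fin 3), t.depth ≤ y.length →
      Rep W K (w ++ y) := by
  induction t with
  | leaf c =>
    intro w h y _
    exact (cert_sound W K hW c w h).append y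
  | node a b c iha ihb ihc =>
    intro w h y hy
    unfold Tree.check at h
    rw [Bool.and_eq_true, Bool.and_eq_true] at h
    unfold Tree.depth at hy
    cases y with
    | nil => simp at hy
    | cons z y =>
      rw [List.length_cons] at hy
      have h1 : max a.depth (max b.depth c.depth) ≤ y.length := Nat.succ_le_succ_iff.1 hy
      have e : w ++ z :: y = (w ++ [z]) ++ y := by simp
      rw [e]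
      have ha : a.depth ≤ y.length := (le_max_left _ _).trans h1
      have hb : b.depth ≤ y.length := (le_max_left _ _).trans ((le_max_right _ _).trans h1)
      have hc : c.depth ≤ y.length := (le_max_right _ _).trans ((le_max_right _ _).trans h1)
      fin_cases z
      · exact iha _ h.1 y ha
      · exact ihb _ h.2.1 y hb
      · exact ihc _ h.2.2 y hc

def tree : Tree :=
  (.node (.node (.leaf [(0, 1, 0, 1)]) (.node (.node (.leaf [(2, 1, 0, 1)]) (.leaf [(0, 2, 0, 1)])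
  (.node (.node (.leaf [(4, 1, 0, 1)]) (.node (.node (.leaf [(6, 1, 0, 1)]) (.leaf [(4, 2, 0, 1)])
  (.leaf [(0, 4, 0, 1)])) (.leaf [(5, 1, 0, 1)]) (.node (.leaf [(0, 2, 2, 1), (3, 2, 1, 1)])
  (.node (.node (.leaf [(8, 1, 0, 1)]) (.node (.leaf [(7, 2, 0, 1)]) (.leaf [(9, 1, 0, 1)]) (.leaf
  [(4, 3, 1, 1)])) (.node (.leaf [(1, 4, 2, 1)]) (.leaf [(0, 1, 1, 1), (6, 2, 1, 1)]) (.leaf [(9,
  1, 0, 1)]))) (.leaf [(7, 1, 0, 1)]) (.leaf [(5, 2, 0, 1)])) (.leaf [(6, 1, 0, 1)]))) (.leaf [(2,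
  2, 0, 1)])) (.node (.node (.leaf [(5, 1, 0, 1)]) (.node (.leaf [(4, 2, 0, 1)]) (.leaf [(6, 1, 0,
  1)]) (.node (.node (.leaf [(8, 1, 0, 1)]) (.node (.node (.leaf [(10, 1, 0, 1)]) (.leaf [(8, 2,
  0, 1)]) (.node (.leaf [(1, 2, 1, 1), (7, 2, 2, 1)]) (.leaf [(0, 5, 3, 1)]) (.leaf [(11, 1, 0,
  1)]))) (.leaf [(9, 1, 0, 1)]) (.leaf [(5, 3, 0, 1)])) (.leaf [(1, 2, 1, 1), (7, 1, 1, 1)]))
  (.leaf [(1, 2, 1, 1), (3, 2, 2, 1)]) (.leaf [(7, 1, 0, 1)]))) (.leaf [(1, 3, 0, 1)])) (.leaf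
  [(4, 1, 0, 1)]) (.node (.node (.leaf [(6, 1, 0, 1)]) (.node (.node (.leaf [(8, 1, 0, 1)]) (.leaf
  [(6, 2, 0, 1)]) (.leaf [(0, 4, 2, 1)])) (.leaf [(7, 1, 0, 1)]) (.leaf [(0, 1, 1, 1), (4, 2, 1,
  1)])) (.node (.leaf [(5, 2, 0, 1)]) (.leaf [(2, 3, 1, 1)]) (.leaf [(7, 1, 0, 1)]))) (.leaf [(3,
  2, 0, 1)]) (.leaf [(5, 1, 0, 1)]))) (.leaf [(3, 1, 0, 1)]))) (.leaf [(1, 1, 0, 1)]) (.node
  (.node (.leaf [(3, 1, 0, 1)]) (.node (.node (.leaf [(5, 1, 0, 1)]) (.leaf [(3, 2, 0, 1)]) (.node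
  (.leaf [(0, 2, 1, 1), (2, 2, 2, 1)]) (.node (.node (.leaf [(8, 1, 0, 1)]) (.node (.leaf [(7, 2,
  0, 1)]) (.leaf [(9, 1, 0, 1)]) (.node (.node (.leaf [(11, 1, 0, 1)]) (.leaf [(0, 5, 3, 1)])
  (.leaf [(0, 2, 1, 1), (10, 1, 1, 1)])) (.leaf [(0, 2, 1, 1), (6, 2, 2, 1)]) (.leaf [(10, 1, 0,
  1)]))) (.leaf [(4, 3, 0, 1)])) (.leaf [(7, 1, 0, 1)]) (.leaf [(0, 2, 1, 1), (6, 1, 1, 1)]))
  (.leaf [(6, 1, 0, 1)]))) (.leaf [(4, 1, 0, 1)]) (.leaf [(0, 3, 0, 1)])) (.node (.leaf [(2, 2, 0,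
  1)]) (.node (.node (.leaf [(6, 1, 0, 1)]) (.node (.leaf [(5, 2, 0, 1)]) (.leaf [(7, 1, 0, 1)])
  (.node (.leaf [(0, 4, 2, 1)]) (.node (.leaf [(4, 3, 1, 1)]) (.leaf [(9, 1, 0, 1)]) (.leaf [(7,
  2, 0, 1)])) (.leaf [(8, 1, 0, 1)]))) (.node (.node (.leaf [(8, 1, 0, 1)]) (.node (.leaf [(3, 2,
  1, 1), (5, 2, 2, 1)]) (.leaf [(9, 1, 0, 1)]) (.node (.node (.leaf [(11, 1, 0, 1)]) (.leaf [(7,
  3, 0, 1)]) (.leaf [(0, 5, 3, 1)])) (.leaf [(3, 2, 1, 1), (9, 1, 1, 1)]) (.leaf [(10, 1, 0,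
  1)]))) (.leaf [(6, 2, 0, 1)])) (.leaf [(3, 3, 0, 1)]) (.leaf [(7, 1, 0, 1)]))) (.leaf [(5, 1, 0,
  1)]) (.node (.leaf [(1, 3, 1, 1)]) (.leaf [(4, 2, 0, 1)]) (.leaf [(6, 1, 0, 1)]))) (.leaf [(4,
  1, 0, 1)]))) (.node (.node (.leaf [(4, 1, 0, 1)]) (.node (.leaf [(3, 2, 0, 1)]) (.leaf [(5, 1,
  0, 1)]) (.leaf [(0, 3, 1, 1)])) (.node (.node (.leaf [(6, 1, 0, 1)]) (.node (.node (.leaf [(8,
  1, 0, 1)]) (.leaf [(6, 2, 0, 1)]) (.leaf [(3, 3, 1, 1)])) (.leaf [(7, 1, 0, 1)]) (.node (.leaf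
  [(1, 1, 1, 1), (5, 2, 1, 1)]) (.leaf [(0, 4, 2, 1)]) (.leaf [(8, 1, 0, 1)]))) (.leaf [(4, 2, 0,
  1)])) (.node (.leaf [(2, 3, 0, 1)]) (.leaf [(6, 1, 0, 1)]) (.node (.node (.leaf [(8, 1, 0, 1)])
  (.node (.leaf [(2, 2, 1, 1), (8, 1, 1, 1)]) (.leaf [(9, 1, 0, 1)]) (.node (.leaf [(6, 3, 0, 1)])
  (.node (.leaf [(0, 5, 3, 1), (2, 2, 1, 1)]) (.leaf [(11, 1, 0, 1)]) (.leaf [(9, 2, 0, 1)]))
  (.leaf [(10, 1, 0, 1)]))) (.leaf [(2, 2, 1, 1), (4, 2, 2, 1)])) (.leaf [(5, 2, 0, 1)]) (.leaf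
  [(7, 1, 0, 1)]))) (.leaf [(5, 1, 0, 1)]))) (.leaf [(3, 1, 0, 1)]) (.leaf [(1, 2, 0, 1)])) (.leaf
  [(2, 1, 0, 1)]))) (.node (.node (.leaf [(2, 1, 0, 1)]) (.node (.node (.leaf [(4, 1, 0, 1)])
  (.leaf [(2, 2, 0, 1)]) (.node (.node (.leaf [(6, 1, 0, 1)]) (.leaf [(0, 4, 0, 1)]) (.leaf [(4,
  2, 0, 1)])) (.node (.leaf [(0, 2, 2, 1), (3, 2, 1, 1)]) (.leaf [(6, 1, 0, 1)]) (.node (.node
  (.leaf [(8, 1, 0, 1)]) (.node (.leaf [(1, 4, 2, 1)]) (.leaf [(9, 1, 0, 1)]) (.leaf [(0, 1, 1,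
  1), (6, 2, 1, 1)])) (.node (.leaf [(7, 2, 0, 1)]) (.leaf [(4, 3, 1, 1)]) (.leaf [(9, 1, 0,
  1)]))) (.leaf [(5, 2, 0, 1)]) (.leaf [(7, 1, 0, 1)]))) (.leaf [(5, 1, 0, 1)]))) (.leaf [(3, 1,
  0, 1)]) (.node (.node (.leaf [(5, 1, 0, 1)]) (.leaf [(1, 3, 0, 1)]) (.node (.leaf [(4, 2, 0,
  1)]) (.node (.node (.leaf [(8, 1, 0, 1)]) (.leaf [(1, 2, 1, 1), (7, 1, 1, 1)]) (.node (.node
  (.leaf [(10, 1, 0, 1)]) (.node (.leaf [(1, 2, 1, 1), (7, 2, 2, 1)]) (.leaf [(11, 1, 0, 1)])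
  (.leaf [(0, 5, 3, 1)])) (.leaf [(8, 2, 0, 1)])) (.leaf [(5, 3, 0, 1)]) (.leaf [(9, 1, 0, 1)])))
  (.leaf [(7, 1, 0, 1)]) (.leaf [(1, 2, 1, 1), (3, 2, 2, 1)])) (.leaf [(6, 1, 0, 1)]))) (.node
  (.node (.leaf [(6, 1, 0, 1)]) (.node (.leaf [(5, 2, 0, 1)]) (.leaf [(7, 1, 0, 1)]) (.leaf [(2,
  3, 1, 1)])) (.node (.node (.leaf [(8, 1, 0, 1)]) (.leaf [(0, 4, 2, 1)]) (.leaf [(6, 2, 0, 1)]))
  (.leaf [(0, 1, 1, 1), (4, 2, 1, 1)]) (.leaf [(7, 1, 0, 1)]))) (.leaf [(5, 1, 0, 1)]) (.leaf [(3,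
  2, 0, 1)])) (.leaf [(4, 1, 0, 1)]))) (.leaf [(0, 2, 0, 1)])) (.node (.node (.leaf [(3, 1, 0,
  1)]) (.node (.leaf [(2, 2, 0, 1)]) (.leaf [(4, 1, 0, 1)]) (.node (.node (.leaf [(6, 1, 0, 1)])
  (.node (.node (.leaf [(8, 1, 0, 1)]) (.leaf [(6, 2, 0, 1)]) (.node (.leaf [(3, 2, 1, 1), (5, 2,
  2, 1)]) (.node (.node (.leaf [(11, 1, 0, 1)]) (.leaf [(0, 5, 3, 1)]) (.leaf [(7, 3, 0, 1)]))
  (.leaf [(10, 1, 0, 1)]) (.leaf [(3, 2, 1, 1), (9, 1, 1, 1)])) (.leaf [(9, 1, 0, 1)]))) (.leaf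
  [(7, 1, 0, 1)]) (.leaf [(3, 3, 0, 1)])) (.node (.leaf [(5, 2, 0, 1)]) (.node (.leaf [(0, 4, 2,
  1)]) (.leaf [(8, 1, 0, 1)]) (.node (.leaf [(4, 3, 1, 1)]) (.leaf [(7, 2, 0, 1)]) (.leaf [(9, 1,
  0, 1)]))) (.leaf [(7, 1, 0, 1)]))) (.node (.leaf [(1, 3, 1, 1)]) (.leaf [(6, 1, 0, 1)]) (.leaf
  [(4, 2, 0, 1)])) (.leaf [(5, 1, 0, 1)]))) (.node (.node (.leaf [(5, 1, 0, 1)]) (.node (.leaf
  [(0, 2, 1, 1), (2, 2, 2, 1)]) (.leaf [(6, 1, 0, 1)]) (.node (.node (.leaf [(8, 1, 0, 1)]) (.leaf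
  [(4, 3, 0, 1)]) (.node (.leaf [(7, 2, 0, 1)]) (.node (.node (.leaf [(11, 1, 0, 1)]) (.leaf [(0,
  2, 1, 1), (10, 1, 1, 1)]) (.leaf [(0, 5, 3, 1)])) (.leaf [(10, 1, 0, 1)]) (.leaf [(0, 2, 1, 1),
  (6, 2, 2, 1)])) (.leaf [(9, 1, 0, 1)]))) (.leaf [(0, 2, 1, 1), (6, 1, 1, 1)]) (.leaf [(7, 1, 0,
  1)]))) (.leaf [(3, 2, 0, 1)])) (.leaf [(0, 3, 0, 1)]) (.leaf [(4, 1, 0, 1)]))) (.leaf [(2, 1, 0,
  1)]) (.node (.node (.leaf [(4, 1, 0, 1)]) (.node (.node (.leaf [(6, 1, 0, 1)]) (.leaf [(4, 2, 0,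
  1)]) (.node (.node (.leaf [(8, 1, 0, 1)]) (.leaf [(3, 3, 1, 1)]) (.leaf [(6, 2, 0, 1)])) (.node
  (.leaf [(1, 1, 1, 1), (5, 2, 1, 1)]) (.leaf [(8, 1, 0, 1)]) (.leaf [(0, 4, 2, 1)])) (.leaf [(7,
  1, 0, 1)]))) (.leaf [(5, 1, 0, 1)]) (.node (.leaf [(2, 3, 0, 1)]) (.node (.node (.leaf [(8, 1,
  0, 1)]) (.leaf [(2, 2, 1, 1), (4, 2, 2, 1)]) (.node (.leaf [(2, 2, 1, 1), (8, 1, 1, 1)]) (.node
  (.leaf [(6, 3, 0, 1)]) (.leaf [(10, 1, 0, 1)]) (.node (.leaf [(0, 5, 3, 1), (2, 2, 1, 1)])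
  (.leaf [(9, 2, 0, 1)]) (.leaf [(11, 1, 0, 1)]))) (.leaf [(9, 1, 0, 1)]))) (.leaf [(7, 1, 0, 1)])
  (.leaf [(5, 2, 0, 1)])) (.leaf [(6, 1, 0, 1)]))) (.node (.leaf [(3, 2, 0, 1)]) (.leaf [(0, 3, 1,
  1)]) (.leaf [(5, 1, 0, 1)]))) (.leaf [(1, 2, 0, 1)]) (.leaf [(3, 1, 0, 1)]))) (.leaf [(1, 1, 0,
  1)]))) (.node (.node (.leaf [(1, 1, 0, 1)]) (.node (.leaf [(0, 2, 0, 1)]) (.leaf [(2, 1, 0, 1)])
  (.node (.node (.leaf [(4, 1, 0, 1)]) (.node (.node (.leaf [(6, 1, 0, 1)]) (.leaf [(4, 2, 0, 1)])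
  (.node (.leaf [(1, 2, 1, 1), (3, 2, 2, 1)]) (.node (.node (.leaf [(9, 1, 0, 1)]) (.node (.leaf
  [(8, 2, 0, 1)]) (.leaf [(10, 1, 0, 1)]) (.node (.leaf [(0, 5, 3, 1)]) (.leaf [(1, 2, 1, 1), (7,
  2, 2, 1)]) (.leaf [(11, 1, 0, 1)]))) (.leaf [(5, 3, 0, 1)])) (.leaf [(8, 1, 0, 1)]) (.leaf [(1,
  2, 1, 1), (7, 1, 1, 1)])) (.leaf [(7, 1, 0, 1)]))) (.leaf [(5, 1, 0, 1)]) (.leaf [(1, 3, 0,
  1)])) (.node (.leaf [(3, 2, 0, 1)]) (.node (.node (.leaf [(7, 1, 0, 1)]) (.node (.leaf [(6, 2,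
  0, 1)]) (.leaf [(8, 1, 0, 1)]) (.leaf [(0, 4, 2, 1)])) (.leaf [(0, 1, 1, 1), (4, 2, 1, 1)]))
  (.leaf [(6, 1, 0, 1)]) (.node (.leaf [(2, 3, 1, 1)]) (.leaf [(5, 2, 0, 1)]) (.leaf [(7, 1, 0,
  1)]))) (.leaf [(5, 1, 0, 1)]))) (.node (.node (.leaf [(5, 1, 0, 1)]) (.node (.leaf [(4, 2, 0,
  1)]) (.leaf [(6, 1, 0, 1)]) (.leaf [(0, 4, 0, 1)])) (.node (.node (.leaf [(7, 1, 0, 1)]) (.node
  (.node (.leaf [(9, 1, 0, 1)]) (.leaf [(7, 2, 0, 1)]) (.leaf [(4, 3, 1, 1)])) (.leaf [(8, 1, 0,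
  1)]) (.node (.leaf [(0, 1, 1, 1), (6, 2, 1, 1)]) (.leaf [(1, 4, 2, 1)]) (.leaf [(9, 1, 0, 1)])))
  (.leaf [(5, 2, 0, 1)])) (.leaf [(0, 2, 2, 1), (3, 2, 1, 1)]) (.leaf [(6, 1, 0, 1)]))) (.leaf
  [(4, 1, 0, 1)]) (.leaf [(2, 2, 0, 1)])) (.leaf [(3, 1, 0, 1)]))) (.node (.node (.leaf [(3, 1, 0,
  1)]) (.node (.node (.leaf [(5, 1, 0, 1)]) (.leaf [(3, 2, 0, 1)]) (.leaf [(0, 3, 1, 1)])) (.leaf
  [(4, 1, 0, 1)]) (.node (.node (.leaf [(6, 1, 0, 1)]) (.leaf [(2, 3, 0, 1)]) (.node (.leaf [(5,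
  2, 0, 1)]) (.node (.node (.leaf [(9, 1, 0, 1)]) (.leaf [(2, 2, 1, 1), (8, 1, 1, 1)]) (.node
  (.node (.leaf [(11, 1, 0, 1)]) (.leaf [(0, 5, 3, 1), (2, 2, 1, 1)]) (.leaf [(9, 2, 0, 1)]))
  (.leaf [(6, 3, 0, 1)]) (.leaf [(10, 1, 0, 1)]))) (.leaf [(8, 1, 0, 1)]) (.leaf [(2, 2, 1, 1),
  (4, 2, 2, 1)])) (.leaf [(7, 1, 0, 1)]))) (.node (.node (.leaf [(7, 1, 0, 1)]) (.node (.leaf [(6,
  2, 0, 1)]) (.leaf [(8, 1, 0, 1)]) (.leaf [(3, 3, 1, 1)])) (.node (.leaf [(0, 4, 2, 1)]) (.leaf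
  [(1, 1, 1, 1), (5, 2, 1, 1)]) (.leaf [(8, 1, 0, 1)]))) (.leaf [(6, 1, 0, 1)]) (.leaf [(4, 2, 0,
  1)])) (.leaf [(5, 1, 0, 1)]))) (.leaf [(1, 2, 0, 1)])) (.node (.node (.leaf [(4, 1, 0, 1)])
  (.node (.leaf [(3, 2, 0, 1)]) (.leaf [(5, 1, 0, 1)]) (.node (.node (.leaf [(7, 1, 0, 1)]) (.node
  (.node (.leaf [(9, 1, 0, 1)]) (.leaf [(7, 2, 0, 1)]) (.node (.leaf [(0, 2, 1, 1), (6, 2, 2, 1)])
  (.node (.leaf [(0, 5, 3, 1)]) (.leaf [(11, 1, 0, 1)]) (.leaf [(0, 2, 1, 1), (10, 1, 1, 1)]))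
  (.leaf [(10, 1, 0, 1)]))) (.leaf [(8, 1, 0, 1)]) (.leaf [(4, 3, 0, 1)])) (.leaf [(0, 2, 1, 1),
  (6, 1, 1, 1)])) (.leaf [(0, 2, 1, 1), (2, 2, 2, 1)]) (.leaf [(6, 1, 0, 1)]))) (.leaf [(0, 3, 0,
  1)])) (.leaf [(3, 1, 0, 1)]) (.node (.node (.leaf [(5, 1, 0, 1)]) (.node (.node (.leaf [(7, 1,
  0, 1)]) (.leaf [(5, 2, 0, 1)]) (.node (.node (.leaf [(9, 1, 0, 1)]) (.leaf [(4, 3, 1, 1)])
  (.leaf [(7, 2, 0, 1)])) (.leaf [(0, 4, 2, 1)]) (.leaf [(8, 1, 0, 1)]))) (.leaf [(6, 1, 0, 1)])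
  (.node (.leaf [(3, 3, 0, 1)]) (.node (.node (.leaf [(9, 1, 0, 1)]) (.leaf [(3, 2, 1, 1), (5, 2,
  2, 1)]) (.node (.leaf [(3, 2, 1, 1), (9, 1, 1, 1)]) (.node (.leaf [(7, 3, 0, 1)]) (.leaf [(11,
  1, 0, 1)]) (.leaf [(0, 5, 3, 1)])) (.leaf [(10, 1, 0, 1)]))) (.leaf [(8, 1, 0, 1)]) (.leaf [(6,
  2, 0, 1)])) (.leaf [(7, 1, 0, 1)]))) (.node (.leaf [(4, 2, 0, 1)]) (.leaf [(1, 3, 1, 1)]) (.leaf
  [(6, 1, 0, 1)]))) (.leaf [(2, 2, 0, 1)]) (.leaf [(4, 1, 0, 1)]))) (.leaf [(2, 1, 0, 1)])))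
  (.leaf [(0, 1, 0, 1)]) (.node (.node (.leaf [(2, 1, 0, 1)]) (.node (.node (.leaf [(4, 1, 0, 1)])
  (.leaf [(2, 2, 0, 1)]) (.node (.node (.leaf [(6, 1, 0, 1)]) (.leaf [(1, 3, 1, 1)]) (.leaf [(4,
  2, 0, 1)])) (.node (.node (.leaf [(7, 1, 0, 1)]) (.node (.leaf [(6, 2, 0, 1)]) (.leaf [(8, 1, 0,
  1)]) (.node (.node (.leaf [(10, 1, 0, 1)]) (.node (.leaf [(0, 5, 3, 1)]) (.leaf [(11, 1, 0, 1)])
  (.leaf [(7, 3, 0, 1)])) (.leaf [(3, 2, 1, 1), (9, 1, 1, 1)])) (.leaf [(3, 2, 1, 1), (5, 2, 2,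
  1)]) (.leaf [(9, 1, 0, 1)]))) (.leaf [(3, 3, 0, 1)])) (.leaf [(6, 1, 0, 1)]) (.node (.node
  (.leaf [(8, 1, 0, 1)]) (.leaf [(0, 4, 2, 1)]) (.node (.leaf [(7, 2, 0, 1)]) (.leaf [(4, 3, 1,
  1)]) (.leaf [(9, 1, 0, 1)]))) (.leaf [(5, 2, 0, 1)]) (.leaf [(7, 1, 0, 1)]))) (.leaf [(5, 1, 0,
  1)]))) (.leaf [(3, 1, 0, 1)]) (.node (.leaf [(0, 3, 0, 1)]) (.node (.node (.leaf [(6, 1, 0, 1)])
  (.leaf [(0, 2, 1, 1), (2, 2, 2, 1)]) (.node (.leaf [(0, 2, 1, 1), (6, 1, 1, 1)]) (.node (.leaf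
  [(4, 3, 0, 1)]) (.leaf [(8, 1, 0, 1)]) (.node (.node (.leaf [(10, 1, 0, 1)]) (.node (.leaf [(0,
  2, 1, 1), (10, 1, 1, 1)]) (.leaf [(11, 1, 0, 1)]) (.leaf [(0, 5, 3, 1)])) (.leaf [(0, 2, 1, 1),
  (6, 2, 2, 1)])) (.leaf [(7, 2, 0, 1)]) (.leaf [(9, 1, 0, 1)]))) (.leaf [(7, 1, 0, 1)]))) (.leaf
  [(5, 1, 0, 1)]) (.leaf [(3, 2, 0, 1)])) (.leaf [(4, 1, 0, 1)]))) (.node (.leaf [(1, 2, 0, 1)])
  (.node (.node (.leaf [(5, 1, 0, 1)]) (.node (.leaf [(4, 2, 0, 1)]) (.leaf [(6, 1, 0, 1)]) (.node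
  (.node (.leaf [(8, 1, 0, 1)]) (.leaf [(1, 1, 1, 1), (5, 2, 1, 1)]) (.leaf [(0, 4, 2, 1)]))
  (.node (.leaf [(3, 3, 1, 1)]) (.leaf [(8, 1, 0, 1)]) (.leaf [(6, 2, 0, 1)])) (.leaf [(7, 1, 0,
  1)]))) (.node (.node (.leaf [(7, 1, 0, 1)]) (.node (.leaf [(2, 2, 1, 1), (4, 2, 2, 1)]) (.leaf
  [(8, 1, 0, 1)]) (.node (.node (.leaf [(10, 1, 0, 1)]) (.leaf [(6, 3, 0, 1)]) (.node (.leaf [(9,
  2, 0, 1)]) (.leaf [(0, 5, 3, 1), (2, 2, 1, 1)]) (.leaf [(11, 1, 0, 1)]))) (.leaf [(2, 2, 1, 1),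
  (8, 1, 1, 1)]) (.leaf [(9, 1, 0, 1)]))) (.leaf [(5, 2, 0, 1)])) (.leaf [(2, 3, 0, 1)]) (.leaf
  [(6, 1, 0, 1)]))) (.leaf [(4, 1, 0, 1)]) (.node (.leaf [(0, 3, 1, 1)]) (.leaf [(3, 2, 0, 1)])
  (.leaf [(5, 1, 0, 1)]))) (.leaf [(3, 1, 0, 1)]))) (.node (.node (.leaf [(3, 1, 0, 1)]) (.node
  (.leaf [(2, 2, 0, 1)]) (.leaf [(4, 1, 0, 1)]) (.node (.node (.leaf [(6, 1, 0, 1)]) (.leaf [(0,
  2, 2, 1), (3, 2, 1, 1)]) (.node (.leaf [(5, 2, 0, 1)]) (.node (.node (.leaf [(9, 1, 0, 1)])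
  (.leaf [(1, 4, 2, 1)]) (.leaf [(0, 1, 1, 1), (6, 2, 1, 1)])) (.leaf [(8, 1, 0, 1)]) (.node
  (.leaf [(4, 3, 1, 1)]) (.leaf [(7, 2, 0, 1)]) (.leaf [(9, 1, 0, 1)]))) (.leaf [(7, 1, 0, 1)])))
  (.node (.leaf [(0, 4, 0, 1)]) (.leaf [(6, 1, 0, 1)]) (.leaf [(4, 2, 0, 1)])) (.leaf [(5, 1, 0,
  1)]))) (.node (.node (.leaf [(5, 1, 0, 1)]) (.node (.node (.leaf [(7, 1, 0, 1)]) (.leaf [(5, 2,
  0, 1)]) (.leaf [(2, 3, 1, 1)])) (.leaf [(6, 1, 0, 1)]) (.node (.leaf [(0, 1, 1, 1), (4, 2, 1,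
  1)]) (.node (.leaf [(0, 4, 2, 1)]) (.leaf [(8, 1, 0, 1)]) (.leaf [(6, 2, 0, 1)])) (.leaf [(7, 1,
  0, 1)]))) (.leaf [(3, 2, 0, 1)])) (.node (.leaf [(1, 3, 0, 1)]) (.leaf [(5, 1, 0, 1)]) (.node
  (.node (.leaf [(7, 1, 0, 1)]) (.node (.leaf [(1, 2, 1, 1), (7, 1, 1, 1)]) (.leaf [(8, 1, 0, 1)])
  (.node (.leaf [(5, 3, 0, 1)]) (.node (.node (.leaf [(11, 1, 0, 1)]) (.leaf [(1, 2, 1, 1), (7, 2,
  2, 1)]) (.leaf [(0, 5, 3, 1)])) (.leaf [(10, 1, 0, 1)]) (.leaf [(8, 2, 0, 1)])) (.leaf [(9, 1,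
  0, 1)]))) (.leaf [(1, 2, 1, 1), (3, 2, 2, 1)])) (.leaf [(4, 2, 0, 1)]) (.leaf [(6, 1, 0, 1)])))
  (.leaf [(4, 1, 0, 1)]))) (.leaf [(2, 1, 0, 1)]) (.leaf [(0, 2, 0, 1)])) (.leaf [(1, 1, 0, 1)])))
  (.node (.node (.leaf [(1, 1, 0, 1)]) (.node (.node (.leaf [(3, 1, 0, 1)]) (.leaf [(1, 2, 0, 1)])
  (.node (.node (.leaf [(5, 1, 0, 1)]) (.leaf [(0, 3, 1, 1)]) (.leaf [(3, 2, 0, 1)])) (.node
  (.node (.leaf [(6, 1, 0, 1)]) (.node (.leaf [(5, 2, 0, 1)]) (.leaf [(7, 1, 0, 1)]) (.node (.node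
  (.leaf [(9, 1, 0, 1)]) (.node (.node (.leaf [(11, 1, 0, 1)]) (.leaf [(9, 2, 0, 1)]) (.leaf [(0,
  5, 3, 1), (2, 2, 1, 1)])) (.leaf [(10, 1, 0, 1)]) (.leaf [(6, 3, 0, 1)])) (.leaf [(2, 2, 1, 1),
  (8, 1, 1, 1)])) (.leaf [(2, 2, 1, 1), (4, 2, 2, 1)]) (.leaf [(8, 1, 0, 1)]))) (.leaf [(2, 3, 0,
  1)])) (.leaf [(5, 1, 0, 1)]) (.node (.node (.leaf [(7, 1, 0, 1)]) (.node (.leaf [(0, 4, 2, 1)])
  (.leaf [(8, 1, 0, 1)]) (.leaf [(1, 1, 1, 1), (5, 2, 1, 1)])) (.node (.leaf [(6, 2, 0, 1)])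
  (.leaf [(3, 3, 1, 1)]) (.leaf [(8, 1, 0, 1)]))) (.leaf [(4, 2, 0, 1)]) (.leaf [(6, 1, 0, 1)])))
  (.leaf [(4, 1, 0, 1)]))) (.leaf [(2, 1, 0, 1)]) (.node (.node (.leaf [(4, 1, 0, 1)]) (.leaf [(0,
  3, 0, 1)]) (.node (.leaf [(3, 2, 0, 1)]) (.node (.node (.leaf [(7, 1, 0, 1)]) (.leaf [(0, 2, 1,
  1), (6, 1, 1, 1)]) (.node (.node (.leaf [(9, 1, 0, 1)]) (.node (.leaf [(0, 2, 1, 1), (6, 2, 2,
  1)]) (.leaf [(10, 1, 0, 1)]) (.node (.leaf [(0, 5, 3, 1)]) (.leaf [(0, 2, 1, 1), (10, 1, 1, 1)])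
  (.leaf [(11, 1, 0, 1)]))) (.leaf [(7, 2, 0, 1)])) (.leaf [(4, 3, 0, 1)]) (.leaf [(8, 1, 0,
  1)]))) (.leaf [(6, 1, 0, 1)]) (.leaf [(0, 2, 1, 1), (2, 2, 2, 1)])) (.leaf [(5, 1, 0, 1)])))
  (.node (.node (.leaf [(5, 1, 0, 1)]) (.node (.leaf [(4, 2, 0, 1)]) (.leaf [(6, 1, 0, 1)]) (.leaf
  [(1, 3, 1, 1)])) (.node (.node (.leaf [(7, 1, 0, 1)]) (.node (.node (.leaf [(9, 1, 0, 1)])
  (.leaf [(7, 2, 0, 1)]) (.leaf [(4, 3, 1, 1)])) (.leaf [(8, 1, 0, 1)]) (.leaf [(0, 4, 2, 1)]))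
  (.leaf [(5, 2, 0, 1)])) (.node (.leaf [(3, 3, 0, 1)]) (.leaf [(7, 1, 0, 1)]) (.node (.node
  (.leaf [(9, 1, 0, 1)]) (.node (.leaf [(3, 2, 1, 1), (9, 1, 1, 1)]) (.leaf [(10, 1, 0, 1)])
  (.node (.leaf [(7, 3, 0, 1)]) (.leaf [(0, 5, 3, 1)]) (.leaf [(11, 1, 0, 1)]))) (.leaf [(3, 2, 1,
  1), (5, 2, 2, 1)])) (.leaf [(6, 2, 0, 1)]) (.leaf [(8, 1, 0, 1)]))) (.leaf [(6, 1, 0, 1)])))
  (.leaf [(4, 1, 0, 1)]) (.leaf [(2, 2, 0, 1)])) (.leaf [(3, 1, 0, 1)]))) (.node (.leaf [(0, 2, 0,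
  1)]) (.node (.node (.leaf [(4, 1, 0, 1)]) (.node (.leaf [(3, 2, 0, 1)]) (.leaf [(5, 1, 0, 1)])
  (.node (.node (.leaf [(7, 1, 0, 1)]) (.leaf [(0, 1, 1, 1), (4, 2, 1, 1)]) (.node (.leaf [(6, 2,
  0, 1)]) (.leaf [(0, 4, 2, 1)]) (.leaf [(8, 1, 0, 1)]))) (.node (.leaf [(2, 3, 1, 1)]) (.leaf
  [(7, 1, 0, 1)]) (.leaf [(5, 2, 0, 1)])) (.leaf [(6, 1, 0, 1)]))) (.node (.node (.leaf [(6, 1, 0,
  1)]) (.node (.leaf [(1, 2, 1, 1), (3, 2, 2, 1)]) (.leaf [(7, 1, 0, 1)]) (.node (.node (.leaf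
  [(9, 1, 0, 1)]) (.leaf [(5, 3, 0, 1)]) (.node (.leaf [(8, 2, 0, 1)]) (.node (.leaf [(0, 5, 3,
  1)]) (.leaf [(11, 1, 0, 1)]) (.leaf [(1, 2, 1, 1), (7, 2, 2, 1)])) (.leaf [(10, 1, 0, 1)])))
  (.leaf [(1, 2, 1, 1), (7, 1, 1, 1)]) (.leaf [(8, 1, 0, 1)]))) (.leaf [(4, 2, 0, 1)])) (.leaf
  [(1, 3, 0, 1)]) (.leaf [(5, 1, 0, 1)]))) (.leaf [(3, 1, 0, 1)]) (.node (.node (.leaf [(5, 1, 0,
  1)]) (.node (.node (.leaf [(7, 1, 0, 1)]) (.leaf [(5, 2, 0, 1)]) (.node (.node (.leaf [(9, 1, 0,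
  1)]) (.leaf [(4, 3, 1, 1)]) (.leaf [(7, 2, 0, 1)])) (.node (.leaf [(0, 1, 1, 1), (6, 2, 1, 1)])
  (.leaf [(9, 1, 0, 1)]) (.leaf [(1, 4, 2, 1)])) (.leaf [(8, 1, 0, 1)]))) (.leaf [(6, 1, 0, 1)])
  (.leaf [(0, 2, 2, 1), (3, 2, 1, 1)])) (.node (.leaf [(4, 2, 0, 1)]) (.leaf [(0, 4, 0, 1)])
  (.leaf [(6, 1, 0, 1)]))) (.leaf [(2, 2, 0, 1)]) (.leaf [(4, 1, 0, 1)]))) (.leaf [(2, 1, 0,
  1)]))) (.node (.node (.leaf [(2, 1, 0, 1)]) (.node (.leaf [(1, 2, 0, 1)]) (.leaf [(3, 1, 0, 1)])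
  (.node (.node (.leaf [(5, 1, 0, 1)]) (.node (.node (.leaf [(7, 1, 0, 1)]) (.leaf [(5, 2, 0, 1)])
  (.node (.leaf [(2, 2, 1, 1), (4, 2, 2, 1)]) (.node (.node (.leaf [(10, 1, 0, 1)]) (.node (.leaf
  [(9, 2, 0, 1)]) (.leaf [(11, 1, 0, 1)]) (.leaf [(0, 5, 3, 1), (2, 2, 1, 1)])) (.leaf [(6, 3, 0,
  1)])) (.leaf [(9, 1, 0, 1)]) (.leaf [(2, 2, 1, 1), (8, 1, 1, 1)])) (.leaf [(8, 1, 0, 1)])))
  (.leaf [(6, 1, 0, 1)]) (.leaf [(2, 3, 0, 1)])) (.node (.leaf [(4, 2, 0, 1)]) (.node (.node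
  (.leaf [(8, 1, 0, 1)]) (.leaf [(0, 4, 2, 1)]) (.leaf [(1, 1, 1, 1), (5, 2, 1, 1)])) (.leaf [(7,
  1, 0, 1)]) (.node (.leaf [(3, 3, 1, 1)]) (.leaf [(6, 2, 0, 1)]) (.leaf [(8, 1, 0, 1)]))) (.leaf
  [(6, 1, 0, 1)]))) (.node (.leaf [(0, 3, 1, 1)]) (.leaf [(5, 1, 0, 1)]) (.leaf [(3, 2, 0, 1)]))
  (.leaf [(4, 1, 0, 1)]))) (.node (.node (.leaf [(4, 1, 0, 1)]) (.node (.node (.leaf [(6, 1, 0,
  1)]) (.leaf [(4, 2, 0, 1)]) (.leaf [(1, 3, 1, 1)])) (.leaf [(5, 1, 0, 1)]) (.node (.node (.leaf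
  [(7, 1, 0, 1)]) (.leaf [(3, 3, 0, 1)]) (.node (.leaf [(6, 2, 0, 1)]) (.node (.node (.leaf [(10,
  1, 0, 1)]) (.leaf [(3, 2, 1, 1), (9, 1, 1, 1)]) (.node (.leaf [(0, 5, 3, 1)]) (.leaf [(7, 3, 0,
  1)]) (.leaf [(11, 1, 0, 1)]))) (.leaf [(9, 1, 0, 1)]) (.leaf [(3, 2, 1, 1), (5, 2, 2, 1)]))
  (.leaf [(8, 1, 0, 1)]))) (.node (.node (.leaf [(8, 1, 0, 1)]) (.node (.leaf [(7, 2, 0, 1)])
  (.leaf [(9, 1, 0, 1)]) (.leaf [(4, 3, 1, 1)])) (.leaf [(0, 4, 2, 1)])) (.leaf [(7, 1, 0, 1)])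
  (.leaf [(5, 2, 0, 1)])) (.leaf [(6, 1, 0, 1)]))) (.leaf [(2, 2, 0, 1)])) (.node (.leaf [(0, 3,
  0, 1)]) (.leaf [(4, 1, 0, 1)]) (.node (.node (.leaf [(6, 1, 0, 1)]) (.node (.leaf [(0, 2, 1, 1),
  (6, 1, 1, 1)]) (.leaf [(7, 1, 0, 1)]) (.node (.leaf [(4, 3, 0, 1)]) (.node (.node (.leaf [(10,
  1, 0, 1)]) (.leaf [(0, 2, 1, 1), (6, 2, 2, 1)]) (.node (.leaf [(0, 2, 1, 1), (10, 1, 1, 1)])
  (.leaf [(0, 5, 3, 1)]) (.leaf [(11, 1, 0, 1)]))) (.leaf [(9, 1, 0, 1)]) (.leaf [(7, 2, 0, 1)]))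
  (.leaf [(8, 1, 0, 1)]))) (.leaf [(0, 2, 1, 1), (2, 2, 2, 1)])) (.leaf [(3, 2, 0, 1)]) (.leaf
  [(5, 1, 0, 1)]))) (.leaf [(3, 1, 0, 1)]))) (.leaf [(1, 1, 0, 1)]) (.node (.node (.leaf [(3, 1,
  0, 1)]) (.node (.node (.leaf [(5, 1, 0, 1)]) (.leaf [(3, 2, 0, 1)]) (.node (.node (.leaf [(7, 1,
  0, 1)]) (.leaf [(2, 3, 1, 1)]) (.leaf [(5, 2, 0, 1)])) (.node (.leaf [(0, 1, 1, 1), (4, 2, 1,
  1)]) (.leaf [(7, 1, 0, 1)]) (.node (.leaf [(0, 4, 2, 1)]) (.leaf [(6, 2, 0, 1)]) (.leaf [(8, 1,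
  0, 1)]))) (.leaf [(6, 1, 0, 1)]))) (.leaf [(4, 1, 0, 1)]) (.node (.leaf [(1, 3, 0, 1)]) (.node
  (.node (.leaf [(7, 1, 0, 1)]) (.leaf [(1, 2, 1, 1), (3, 2, 2, 1)]) (.node (.leaf [(1, 2, 1, 1),
  (7, 1, 1, 1)]) (.node (.leaf [(5, 3, 0, 1)]) (.leaf [(9, 1, 0, 1)]) (.node (.node (.leaf [(11,
  1, 0, 1)]) (.leaf [(0, 5, 3, 1)]) (.leaf [(1, 2, 1, 1), (7, 2, 2, 1)])) (.leaf [(8, 2, 0, 1)])
  (.leaf [(10, 1, 0, 1)]))) (.leaf [(8, 1, 0, 1)]))) (.leaf [(6, 1, 0, 1)]) (.leaf [(4, 2, 0,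
  1)])) (.leaf [(5, 1, 0, 1)]))) (.node (.leaf [(2, 2, 0, 1)]) (.node (.node (.leaf [(6, 1, 0,
  1)]) (.node (.leaf [(5, 2, 0, 1)]) (.leaf [(7, 1, 0, 1)]) (.node (.node (.leaf [(9, 1, 0, 1)])
  (.leaf [(0, 1, 1, 1), (6, 2, 1, 1)]) (.leaf [(1, 4, 2, 1)])) (.node (.leaf [(4, 3, 1, 1)])
  (.leaf [(9, 1, 0, 1)]) (.leaf [(7, 2, 0, 1)])) (.leaf [(8, 1, 0, 1)]))) (.leaf [(0, 2, 2, 1),
  (3, 2, 1, 1)])) (.leaf [(5, 1, 0, 1)]) (.node (.leaf [(0, 4, 0, 1)]) (.leaf [(4, 2, 0, 1)])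
  (.leaf [(6, 1, 0, 1)]))) (.leaf [(4, 1, 0, 1)]))) (.leaf [(0, 2, 0, 1)]) (.leaf [(2, 1, 0,
  1)]))) (.leaf [(0, 1, 0, 1)])))

set_option maxRecDepth 100000 in
lemma tree_check : tree.check [] = true := by decide +kernel

set_option maxRecDepth 100000 in
lemma tree_depth : tree.depth ≤ 13 := by decide +kernel

theorem exists_rep (W : Fin 3 → ℕ) (K : ℕ) (hW : ∀ a, 2 * K ≤ W a) (x : List (Fin 3))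
    (hx : 13 ≤ x.length) : Rep W K x := by
  have := Tree.sound W K hW tree [] tree_check x (tree_depth.trans hx)
  simpa using this

end Pool.Agent.K6.H59.TB
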